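import Pool.Agent.H14.PD.Stmts

set_option autoImplicit false

namespace Pool.Agent.H14.PD

theorem pd_fia : FIA := by
  intro Y S _ _ Q y0
  have f1 : (Set.range (fun p : Y × S => FreeGroup.of p)).Finite := Set.finite_range _
  have f2 : (Set.range (fun p : Y × S => wd Q.act p.1 [p.2, p.2])).Finite := Set.finite_range _
  have f3 : (Set.range (fun p : Y × S × S => wd Q.act p.1 [p.2.1, p.2.2, p.2.1, p.2.2])).Finite :=
    Set.finite_range _
  have f4 : (Set.range (fun y : Y => wd Q.act y0 (Q.tau y0 y))).Finite := Set.finite_range _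
  refine (((f1.union f2).union f3).union f4).subset ?_
  rintro r (⟨y, s, -, rfl⟩ | ⟨y, s, -, -, rfl⟩ | ⟨y, s, t, -, -, -, -, rfl⟩ | ⟨y, -, rfl⟩)
  · exact Or.inl (Or.inl (Or.inl ⟨(y, s), rfl⟩))
  · exact Or.inl (Or.inl (Or.inr ⟨(y, s), rfl⟩))
  · exact Or.inl (Or.inr ⟨(y, s, t), rfl⟩)
  · exact Or.inr ⟨y, rfl⟩

end Pool.Agent.H14.PD
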