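import Pool.Agent.H14.PD.Stmts

set_option autoImplicit false

namespace Pool.Agent.H14.PD

theorem pd_sln_path (hT : TAU) (Y S : Type) (Q : Sq Y S) (y0 : Y) (w : List S) :
    ∀ y, ¬ Q.Rc y0 y → Tr Q.lab Q.act y w →
      wd Q.act y w ∈ Subgroup.normalClosure (Q.rel y0) := by
  obtain ⟨-, -, -, -, -, h6, -⟩ := hT Y S Q y0
  induction w with
  | nil =>
    intro y _ _
    exact Subgroup.one_mem _
  | cons s w ih =>
    intro y hy hw
    obtain ⟨h1, h2⟩ := hw
    show FreeGroup.of (y, s) * wd Q.act (Q.act y s) w ∈ _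
    refine Subgroup.mul_mem _ ?_ (ih (Q.act y s) (fun h => hy (h6 y s h1 h)) h2)
    refine Subgroup.subset_normalClosure (Or.inl ⟨y, s, ?_, rfl⟩)
    exact fun h => hy h.1

theorem pd_sln : M_SLN := by
  intro _ hT Y S Q y0
  refine Subgroup.normalClosure_le_normal ?_
  rintro r (⟨y, s, hl, rfl⟩ | ⟨y, s, t, hc, htr, hen, rfl⟩)
  · by_cases hy : Q.Rc y0 y
    · exact Subgroup.subset_normalClosure (Or.inr (Or.inl ⟨y, s, hy, hl, rfl⟩))
    · refine pd_sln_path hT Y S Q y0 [s, s] y hy ?_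
      exact ⟨hl, (Q.inv y s hl).1, trivial⟩
  · by_cases hy : Q.Rc y0 y
    · exact Subgroup.subset_normalClosure
        (Or.inr (Or.inr (Or.inl ⟨y, s, t, hy, hc, htr, hen, rfl⟩)))
    · exact pd_sln_path hT Y S Q y0 _ y hy htr

end Pool.Agent.H14.PD
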