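import Pool.Agent.H14.PD.Stmts

set_option autoImplicit false

namespace Pool.Agent.H14.PD

theorem pd_xco_pe {P Q : Type} (Z : Sz P Q) (p : P) (b : Bool) :
    ∃ c, pe Z p b = Nd.p p c ∧ (p ≠ Z.ps → c = b) ∧ (p = Z.ps → c = false) := by
  by_cases hp : p = Z.ps
  · refine ⟨false, ?_, fun h => absurd hp h, fun _ => rfl⟩
    unfold pe
    rw [if_pos hp]
  · refine ⟨b, ?_, fun _ => rfl, fun h => absurd h hp⟩
    unfold pe
    rw [if_neg hp]

theorem pd_xco_ne {P Q : Type} (Z : Sz P Q) (x : Xv P Q) (s : Xs P Q) (i : Fin 3) (hi : i ≠ s.1) :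
    xact Z x s i = x i := by
  unfold xact
  rw [Function.update_of_ne hi]

theorem pd_xco : XCO := by
  intro P Q Z
  refine ⟨?_, ?_, fun p b => pd_xco_pe Z p b⟩
  · intro x s h
    obtain ⟨h1, h2, h3⟩ := h
    refine ⟨h1, h2, ?_, fun i hi => pd_xco_ne Z x s i hi⟩
    rcases h3 with h3 | h3
    · left
      refine ⟨h3, ?_⟩
      unfold xact oe
      rw [Function.update_self, if_pos h3]
    · right
      refine ⟨h3, ?_⟩
      unfold xact oe
      rw [Function.update_self, if_neg]
      rw [h3]
      obtain ⟨c, hc, -, -⟩ := pd_xco_pe Z s.2.1 s.2.2.2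
      rw [hc]
      intro h
      cases h
  · intro x u
    induction u generalizing x with
    | nil => intro j _; rfl
    | cons s u ih =>
      intro j hj
      show en (xact Z) (xact Z x s) u j = x j
      rw [ih (xact Z x s) j (fun t ht => hj t (List.mem_cons_of_mem _ ht))]
      exact pd_xco_ne Z x s j (fun h => hj s List.mem_cons_self h.symm)

end Pool.Agent.H14.PD
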