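import Pool.Agent.H14.PD.Stmts

set_option autoImplicit false

namespace Pool.Agent.H14.PD

theorem pd_xrb : M_XRB := by
  intro hcm hpa hex P Q Z m hm x hx
  obtain ⟨s0, hs0⟩ := hx
  have hgd : gd Z x := hs0.1
  cases h0 : x 0 with
  | q q b =>
    obtain ⟨s, hs1, hs2, hs3⟩ := hex P Q Z x hgd 2 true
    refine ⟨s, ?_, hs2, ?_, ?_⟩
    · unfold xbig
      rw [hs1]
      decide
    · have := hs3 m hm
      simpa using this
    · intro a ha hal _
      have ha0 : a.1 = 0 := ha
      refine hpa P Q Z x s a ?_ hs2 hal ?_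
      · rw [hs1, ha0]
        decide
      · rintro ⟨-, p, b', hp⟩
        rw [ha0, h0] at hp
        cases hp
  | p p b =>
    obtain ⟨s, hs1, hs2, hs3⟩ := hex P Q Z x hgd 1 true
    refine ⟨s, ?_, hs2, ?_, ?_⟩
    · unfold xbig
      rw [hs1]
      decide
    · have := hs3 m hm
      simpa using this
    · intro a ha hal _
      have ha0 : a.1 = 0 := ha
      refine (hcm P Q Z).1 a s (hpa P Q Z x a s ?_ hal hs2 ?_)
      · rw [hs1, ha0]
        decide
      · rintro ⟨⟨q, b', hq⟩, -⟩
        rw [ha0, h0] at hq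
        cases hq

end Pool.Agent.H14.PD
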