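import Pool.Agent.H5.PD.XCO

set_option autoImplicit false

namespace Pool.Agent.H14.PD

theorem pd_xys : XYS := by
  intro P Q Z
  refine ⟨?_, ?_, ?_⟩
  · intro x s _ hs
    unfold xbig at hs
    unfold xY
    rw [pd_xco_ne Z x s 0 (fun h => hs h.symm)]
  · intro x s hl hs
    obtain ⟨h0, h1, h2⟩ := hs
    obtain ⟨-, -, h3, -⟩ := (pd_xco P Q Z).1 x s hl
    rw [h0, h1, h2] at h3
    have hpe : pe Z Z.ps true = Nd.p Z.ps false := by
      unfold pe
      rw [if_pos rfl]
    rw [hpe] at h3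
    unfold xY
    rcases h3 with ⟨h4, h5⟩ | ⟨h4, h5⟩
    · rw [h4, h5]
      constructor
      · rintro - ⟨b, hb⟩
        cases hb
      · intro _
        exact ⟨false, rfl⟩
    · rw [h4, h5]
      constructor
      · rintro ⟨b, hb⟩
        cases hb
      · intro h
        exact absurd ⟨false, rfl⟩ h
  · intro x s hl hb hside hsp
    have h0 : s.1 = 0 := hb
    have hps : s.2.1 ≠ Z.ps := fun h => hsp ⟨h0, h, hside⟩
    obtain ⟨-, -, h3, -⟩ := (pd_xco P Q Z).1 x s hl
    obtain ⟨c, hc, -, -⟩ := pd_xco_pe Z s.2.1 s.2.2.2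
    rw [h0, hc] at h3
    unfold xY
    rcases h3 with ⟨h4, h5⟩ | ⟨h4, h5⟩
    · rw [h4, h5]
      constructor
      · rintro ⟨b, hb⟩
        cases hb
      · rintro ⟨b, hb⟩
        injection hb with e1 e2
        exact hps e1
    · rw [h4, h5]
      constructor
      · rintro ⟨b, hb⟩
        injection hb with e1 e2
        exact hps e1
      · rintro ⟨b, hb⟩
        cases hb

end Pool.Agent.H14.PD
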